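import Pool.Agent.N566.VV.Defs3

/-!
Project VV, part 18: from functions of lists to functions of states.
-/

set_option autoImplicit false

namespace Pool.Agent.N342.VV

open Pool.Agent.N566.VV
open Pool.Agent.H550R3.Jones (br brf Adm crossP crossN gen rep tail Gen)
open Finset

theorem split1 {α : Type} (σ : ℕ → α) (i m : ℕ) : (List.range (i + m)).map σ =
    (List.range i).map σ ++ (List.range m).map (fun p => σ (i + p)) := by
  rw [List.range_add, List.map_append, List.map_map]
  rfl

theorem split2 {α : Type} (σ : ℕ → α) (i m : ℕ) : (List.range (i + (2 + m))).map σ =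
    (List.range i).map σ ++ (σ i :: σ (i + 1) :: (List.range m).map (fun p => σ (i + (2 + p)))) := by
  rw [split1, split1]
  rfl

theorem take_i {α : Type} (σ : ℕ → α) (i : ℕ) (M : List α) :
    ((List.range i).map σ ++ M).take i = (List.range i).map σ := by
  have h : ((List.range i).map σ).length = i := by simp
  exact List.take_left' h

theorem drop_i {α : Type} (σ : ℕ → α) (i : ℕ) (M : List α) :
    ((List.range i).map σ ++ M).drop i = M := by
  have h : ((List.range i).map σ).length = i := by simp
  exact List.drop_left' h

theorem map_congr_lt {α : Type} (σ τ : ℕ → α) (i : ℕ) (h : ∀ p < i, σ p = τ p) :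
    (List.range i).map σ = (List.range i).map τ :=
  List.map_congr_left fun p hp => h p (List.mem_range.1 hp)

theorem del_list {α : Type} (σ : ℕ → α) (i m : ℕ) : (List.range (i + m)).map (delS i σ) =
    (List.range i).map σ ++ (List.range m).map (fun p => σ (i + (2 + p))) := by
  rw [split1]
  congr 1
  · exact map_congr_lt _ _ i fun p hp => by rw [delS, if_pos hp]
  · refine map_congr_lt _ _ m fun p _ => ?_
    rw [delS, if_neg (by omega), show i + p + 2 = i + (2 + p) by omega]

theorem ins_list {α : Type} (σ : ℕ → α) (x y : α) (i m : ℕ) :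
    (List.range (i + (2 + m))).map (insS i x y σ) =
    (List.range i).map σ ++ (x :: y :: (List.range m).map (fun p => σ (i + p))) := by
  rw [split2]
  congr 1
  · exact map_congr_lt _ _ i fun p hp => by rw [insS, if_pos hp]
  · have h1 : insS i x y σ i = x := by
      rw [insS, if_neg (by omega), if_pos rfl]
    have h2 : insS i x y σ (i + 1) = y := by
      rw [insS, if_neg (by omega), if_neg (by omega), if_pos rfl]
    rw [h1, h2]
    congr 2
    refine map_congr_lt _ _ m fun p _ => ?_
    rw [insS, if_neg (by omega), if_neg (by omega), if_neg (by omega),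
      show i + (2 + p) - 2 = i + p by omega]

theorem upd_list {α : Type} (σ : ℕ → α) (x y : α) (i m : ℕ) :
    (List.range (i + (2 + m))).map (updS i x y σ) =
    (List.range i).map σ ++ (x :: y :: (List.range m).map (fun p => σ (i + (2 + p)))) := by
  rw [split2]
  congr 1
  · exact map_congr_lt _ _ i fun p hp => by rw [updS, if_neg (by omega), if_neg (by omega)]
  · have h1 : updS i x y σ i = x := by
      rw [updS, if_pos rfl]
    have h2 : updS i x y σ (i + 1) = y := by
      rw [updS, if_neg (by omega), if_pos rfl]
    rw [h1, h2]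
    congr 2
    refine map_congr_lt _ _ m fun p _ => ?_
    rw [updS, if_neg (by omega), if_neg (by omega)]

theorem rev_iff {N : ℕ} (x y : Fin N) : (x : ℕ) + y = N - 1 ↔ y = Fin.rev x := by
  rw [Fin.ext_iff, Fin.val_rev]
  omega

theorem s_lst : S_LST := by
  intro N v P n n' hP f G hf σ
  cases P with
  | cup i =>
    simp only [Pc.strands] at hP
    split_ifs at hP with hi
    obtain ⟨m, rfl⟩ : ∃ m, n = i + m := ⟨n - i, by omega⟩
    obtain rfl : i + m + 2 = n' := by simpa using hP
    show Dl (datJ N v) i f σ = _
    rw [show i + m + 2 = i + (2 + m) by omega]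
    simp only [Pc.act, Dl, split2, drop_i, take_i]
    have h1 : (datJ N v).rev (σ i) = Fin.rev (σ i) := rfl
    rw [h1, hf, del_list]
    have h2 : delS i σ (i + m) = σ (i + (2 + m)) := by
      rw [delS, if_neg (by omega), show i + m + 2 = i + (2 + m) by omega]
    rw [h2]
    by_cases h : σ (i + 1) = Fin.rev (σ i)
    · rw [if_pos h, if_pos ((rev_iff _ _).2 h)]
      rfl
    · rw [if_neg h, if_neg (fun h3 => h ((rev_iff _ _).1 h3)), zero_mul]
  | cap i =>
    simp only [Pc.strands] at hP
    split_ifs at hP with hi
    obtain ⟨m, rfl⟩ : ∃ m, n = i + (2 + m) := ⟨n - i - 2, by omega⟩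
    obtain rfl : i + (2 + m) - 2 = n' := by simpa using hP
    show Bl (datJ N v) i f σ = _
    rw [show i + (2 + m) - 2 = i + m by omega]
    simp only [Pc.act, Bl, split1, drop_i, take_i]
    rw [Fintype.sum_prod_type]
    refine Finset.sum_congr rfl fun x _ => ?_
    rw [Finset.sum_eq_single (Fin.rev x)]
    · have h1 : (datJ N v).rev x = Fin.rev x := rfl
      rw [h1, hf, ins_list, if_pos ((rev_iff _ _).2 rfl)]
      have h2 : insS i x (Fin.rev x) σ (i + (2 + m)) = σ (i + m) := by
        rw [insS, if_neg (by omega), if_neg (by omega), if_neg (by omega),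
          show i + (2 + m) - 2 = i + m by omega]
      rw [h2]
      rfl
    · intro y _ hy
      rw [if_neg (fun h3 => hy ((rev_iff _ _).1 h3)), zero_mul]
    · intro h
      exact absurd (mem_univ _) h
  | tw i s m₀ =>
    simp only [Pc.strands] at hP
    split_ifs at hP with hi
    obtain ⟨m, rfl⟩ : ∃ m, n = i + (2 + m) := ⟨n - i - 2, by omega⟩
    obtain rfl : i + (2 + m) = n' := by simpa using hP
    show Xl _ i f σ = _
    simp only [Pc.act, Xl, split2, drop_i, take_i]
    refine Finset.sum_congr rfl fun p _ => ?_
    rw [hf, upd_list]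
    have h2 : updS i p.1 p.2 σ (i + (2 + m)) = σ (i + (2 + m)) := by
      rw [updS, if_neg (by omega), if_neg (by omega)]
    rw [h2]

end Pool.Agent.N342.VV
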